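import Mathlib.GroupTheory.Sylow
import Mathlib.Data.ZMod.Basic
import Mathlib.GroupTheory.Perm.Cycle.Type
import Mathlib.Algebra.BigOperators.Fin
import Mathlib.Tactic.Ring
import Mathlib.Tactic.Abel

namespace Pool.Agent.Work.MP_8e29f8_al

open Equiv

/-- The group `(F_5^15 ⋊ (F_3^4 ⋊ S_5)) × Z_2`. -/
@[ext]
structure GG where
  v : Fin 5 × ZMod 3 → ZMod 5
  c : Fin 5 → ZMod 3
  s : Perm (Fin 5)
  e : ZMod 2
  hc : ∑ i, c i = 0

namespace GG

instance : Mul GG where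
  mul x y :=
    { v := fun w => y.v w + x.v (y.s w.1, w.2 + y.c w.1)
      c := fun i => y.c i + x.c (y.s i)
      s := x.s * y.s
      e := x.e + y.e
      hc := by
        rw [Finset.sum_add_distrib, y.hc, Equiv.sum_comp y.s x.c, x.hc, add_zero] }

instance : One GG where
  one := { v := 0, c := 0, s := 1, e := 0, hc := by simp }

instance : Inv GG where
  inv x :=
    { v := fun w => - x.v (x.s⁻¹ w.1, w.2 - x.c (x.s⁻¹ w.1))
      c := fun i => - x.c (x.s⁻¹ i)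
      s := x.s⁻¹
      e := - x.e
      hc := by
        rw [Finset.sum_neg_distrib, Equiv.sum_comp x.s⁻¹ x.c, x.hc, neg_zero] }

@[simp] theorem mul_v (x y : GG) (w) : (x * y).v w = y.v w + x.v (y.s w.1, w.2 + y.c w.1) := rfl
@[simp] theorem mul_c (x y : GG) (i) : (x * y).c i = y.c i + x.c (y.s i) := rfl
@[simp] theorem mul_s (x y : GG) : (x * y).s = x.s * y.s := rfl
@[simp] theorem mul_e (x y : GG) : (x * y).e = x.e + y.e := rfl
@[simp] theorem one_v (w) : (1 : GG).v w = 0 := rfl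
@[simp] theorem one_c (i) : (1 : GG).c i = 0 := rfl
@[simp] theorem one_s : (1 : GG).s = 1 := rfl
@[simp] theorem one_e : (1 : GG).e = 0 := rfl
@[simp] theorem inv_v (x : GG) (w) :
    (x⁻¹).v w = - x.v (x.s⁻¹ w.1, w.2 - x.c (x.s⁻¹ w.1)) := rfl
@[simp] theorem inv_c (x : GG) (i) : (x⁻¹).c i = - x.c (x.s⁻¹ i) := rfl
@[simp] theorem inv_s (x : GG) : (x⁻¹).s = x.s⁻¹ := rfl
@[simp] theorem inv_e (x : GG) : (x⁻¹).e = - x.e := rfl

instance : Group GG where
  mul_assoc x y z := by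
    ext w
    · simp [add_assoc]
    · simp [add_assoc]
    · simp
    · simp [add_assoc]
  one_mul x := by ext w <;> simp
  mul_one x := by ext w <;> simp
  inv_mul_cancel x := by
    ext w
    · simp
    · simp
    · simp
    · exact neg_add_cancel x.e

instance : Finite GG :=
  Finite.of_injective (fun x : GG => (x.v, x.c, x.s, x.e)) (by
    intro x y h
    simp only [Prod.mk.injEq] at h
    ext1 <;> simp [h.1, h.2.1, h.2.2.1, h.2.2.2])

/-- projection to `S_5`. -/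
def tau : GG →* Perm (Fin 5) where
  toFun x := x.s
  map_one' := rfl
  map_mul' _ _ := rfl

@[simp] theorem tau_apply (x : GG) : tau x = x.s := rfl

theorem tau_surj : Function.Surjective tau := fun s =>
  ⟨{ v := 0, c := 0, s := s, e := 0, hc := by simp }, rfl⟩

/-- projection to `Z_2`. -/
def eps : GG →* Multiplicative (ZMod 2) where
  toFun x := Multiplicative.ofAdd x.e
  map_one' := rfl
  map_mul' _ _ := rfl

theorem pow_s (x : GG) (n : ℕ) : (x ^ n).s = x.s ^ n := map_pow tau x n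

theorem pow_e (x : GG) (n : ℕ) : (x ^ n).e = n • x.e := by
  induction n with
  | zero => simp
  | succ n ih => rw [pow_succ, mul_e, ih, succ_nsmul]

theorem pow_c (x : GG) (hx : x.s = 1) (n : ℕ) (i) : (x ^ n).c i = n • x.c i := by
  induction n with
  | zero => simp
  | succ n ih => rw [pow_succ, mul_c, hx, Perm.one_apply, ih, succ_nsmul, add_comm]

theorem pow_v (x : GG) (hx : x.s = 1) (hc : x.c = 0) (n : ℕ) (w) :
    (x ^ n).v w = n • x.v w := by
  induction n with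
  | zero => simp
  | succ n ih =>
    rw [pow_succ, mul_v, hx, hc, Perm.one_apply, Pi.zero_apply, add_zero, ih, succ_nsmul, add_comm]

theorem z3 (k : ℕ) (a : ZMod 3) (h : (5 ^ k) • a = 0) : a = 0 := by
  induction k with
  | zero => simpa using h
  | succ k ih =>
    apply ih
    rw [pow_succ, mul_nsmul'] at h
    revert h
    generalize 5 ^ k = m
    rw [nsmul_eq_mul, nsmul_eq_mul, nsmul_eq_mul]
    generalize (m : ZMod 3) = b
    clear ih
    revert a b
    decide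

theorem z2 (m : ℕ) (hm : Odd m) (a : ZMod 2) (h : m • a = 0) : a = 0 := by
  obtain ⟨k, rfl⟩ := hm
  rw [nsmul_eq_mul] at h
  push_cast at h
  generalize (k : ZMod 2) = b at h
  revert a b
  decide

theorem z5 (k : ℕ) (a : ZMod 5) (h : (3 ^ k) • a = 0) : a = 0 := by
  induction k with
  | zero => simpa using h
  | succ k ih =>
    apply ih
    rw [pow_succ, mul_nsmul'] at h
    revert h
    generalize 3 ^ k = m
    rw [nsmul_eq_mul, nsmul_eq_mul, nsmul_eq_mul]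
    generalize (m : ZMod 5) = b
    clear ih
    revert a b
    decide

/-- The normal elementary abelian `5`-subgroup. -/
def V : Subgroup GG where
  carrier := {x | x.s = 1 ∧ x.c = 0 ∧ x.e = 0}
  mul_mem' := by
    rintro x y ⟨h1, h2, h3⟩ ⟨h4, h5, h6⟩
    refine ⟨by simp [h1, h4], ?_, by simp [h3, h6]⟩
    ext i; simp [h2, h5]
  one_mem' := ⟨rfl, rfl, rfl⟩
  inv_mem' := by
    rintro x ⟨h1, h2, h3⟩
    refine ⟨by simp [h1], ?_, by simp [h3]⟩
    ext i; simp [h2]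

theorem mem_V {x : GG} : x ∈ V ↔ x.s = 1 ∧ x.c = 0 ∧ x.e = 0 := Iff.rfl

instance : V.Normal where
  conj_mem := by
    rintro x ⟨h1, h2, h3⟩ g
    refine ⟨by simp [h1], ?_, by rw [mul_e, mul_e, h3, inv_e, add_zero, add_neg_cancel]⟩
    ext i; simp [h1, h2]

/-- A `5`-element with trivial image in `S_5` lies in `V`. -/
theorem mem_V_of_pow (x : GG) (hs : x.s = 1) (k : ℕ) (hx : x ^ 5 ^ k = 1) : x ∈ V := by
  refine ⟨hs, ?_, ?_⟩
  · ext i
    apply z3 k
    rw [← pow_c x hs, hx, one_c]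
  · apply z2 (5 ^ k) (Odd.pow (by decide))
    rw [← pow_e, hx, one_e]

/-- A `3`-element of `V` is trivial. -/
theorem eq_one_of_mem_V (x : GG) (hx : x ∈ V) (k : ℕ) (h : x ^ 3 ^ k = 1) : x = 1 := by
  obtain ⟨h1, h2, h3⟩ := hx
  ext1
  · ext w
    apply z5 k
    rw [← pow_v x h1 h2, h, one_v]
  · exact h2
  · exact h1
  · exact h3

theorem V_pow (x : GG) (hx : x ∈ V) : x ^ 5 = 1 := by
  obtain ⟨h1, h2, h3⟩ := hx
  ext1
  · ext w
    rw [pow_v x h1 h2, one_v]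
    generalize x.v w = a
    revert a; decide
  · ext i
    rw [pow_c x h1, h2]; simp
  · rw [pow_s, h1]; simp
  · rw [pow_e, h3]; simp

theorem V_comm (x y : GG) (hx : x ∈ V) (hy : y ∈ V) : x * y = y * x := by
  obtain ⟨h1, h2, h3⟩ := hx
  obtain ⟨h4, h5, h6⟩ := hy
  ext1
  · ext w; simp [h1, h2, h4, h5, add_comm]
  · ext i; simp [h2, h5]
  · simp [h1, h4]
  · simp [h3, h6]

end GG

set_option synthInstance.maxSize 1024 in
private theorem perm_fact1_h32 : ∀ s : Perm (Fin 5), s ^ 5 = 1 → s ≠ 1 →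
    ∀ t : Perm (Fin 5), t ^ 3 = 1 →
    (t * s * t⁻¹ = 1 ∨ t * s * t⁻¹ = s ∨ t * s * t⁻¹ = s ^ 2 ∨ t * s * t⁻¹ = s ^ 3 ∨
      t * s * t⁻¹ = s ^ 4) → t = 1 := by
  decide +kernel

private theorem perm_fact2_h32 : ∀ s : Perm (Fin 5), s ^ 5 = 1 →
    ∀ t : Perm (Fin 5), t ^ 3 = 1 → t ≠ 1 →
    (s * t * s⁻¹ = 1 ∨ s * t * s⁻¹ = t ∨ s * t * s⁻¹ = t ^ 2) → s = 1 := by
  decide +kernel

theorem perm_fact1 : ∀ s t : Perm (Fin 5), s ^ 5 = 1 → s ≠ 1 → t ^ 3 = 1 →
    (t * s * t⁻¹ = 1 ∨ t * s * t⁻¹ = s ∨ t * s * t⁻¹ = s ^ 2 ∨ t * s * t⁻¹ = s ^ 3 ∨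
      t * s * t⁻¹ = s ^ 4) → t = 1 :=
  fun s t h1 h2 => perm_fact1_h32 s h1 h2 t

theorem perm_fact2 : ∀ s t : Perm (Fin 5), s ^ 5 = 1 → t ^ 3 = 1 → t ≠ 1 →
    (s * t * s⁻¹ = 1 ∨ s * t * s⁻¹ = t ∨ s * t * s⁻¹ = t ^ 2) → s = 1 :=
  fun s t h1 => perm_fact2_h32 s h1 t

theorem perm_fact3 : ∀ s : Perm (Fin 5), s ^ 5 = 1 → s ≠ 1 → ∀ c : Fin 5 → ZMod 3,
    ∑ i, c i = 0 → (∀ i, c (s i) = c i) → c = 0 := by
  decide +kernel

theorem perm_fact4 : ∀ s : Perm (Fin 5), s ^ 25 = 1 → s ^ 5 = 1 := by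
  intro s h
  have h1 : s ^ 120 = 1 := by
    have := pow_card_eq_one (x := s)
    rwa [Fintype.card_perm, Fintype.card_fin] at this
  calc s ^ 5 = s ^ 120 * s ^ 5 := by rw [h1, one_mul]
    _ = (s ^ 25) ^ 5 := by rw [← pow_add, ← pow_mul]
    _ = 1 := by rw [h, one_pow]

end Pool.Agent.Work.MP_8e29f8_al
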