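import Pool.Agent.Work.MP_8e29f8_al.Defs
import Pool.Agent.Work.MP_8e29f8_al.Grp
import Mathlib.GroupTheory.SpecificGroups.Cyclic
import Mathlib.Tactic.IntervalCases

namespace Pool.Agent.Work.MP_8e29f8_al

open Equiv GG

theorem cyc {G : Type} [Group G] [Finite G] {p : ℕ} [hp : Fact p.Prime] (K : Subgroup G)
    (hK : Nat.card K = p) :
    ∃ s ∈ K, s ≠ 1 ∧ s ^ p = 1 ∧ ∀ u ∈ K, ∃ k < p, u = s ^ k := by
  classical
  obtain ⟨s, hs⟩ := exists_prime_orderOf_dvd_card' (G := K) p (by rw [hK])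
  have hs1 : s ≠ 1 := by
    rintro rfl
    rw [orderOf_one] at hs
    exact hp.out.one_lt.ne hs
  refine ⟨s, s.2, fun h => hs1 (Subtype.ext h), ?_, fun u hu => ?_⟩
  · have : s ^ p = 1 := by rw [← hs, pow_orderOf_eq_one]
    exact_mod_cast congrArg Subtype.val this
  · have hmem : (⟨u, hu⟩ : K) ∈ Subgroup.zpowers s := mem_zpowers_of_prime_card hK hs1
    rw [mem_zpowers_iff_mem_range_orderOf, Finset.mem_image] at hmem
    obtain ⟨k, hk, hk2⟩ := hmem
    rw [Finset.mem_range, hs] at hk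
    exact ⟨k, hk, (congrArg Subtype.val hk2).symm⟩

theorem card_S5 : Nat.card (Perm (Fin 5)) = 120 := by
  rw [Nat.card_eq_fintype_card, Fintype.card_perm, Fintype.card_fin]; rfl

instance fact5 : Fact (Nat.Prime 5) := ⟨by decide⟩

instance fact3 : Fact (Nat.Prime 3) := ⟨by decide⟩

theorem card_syl5 (P : Sylow 5 (Perm (Fin 5))) : Nat.card P = 5 := by
  rw [Sylow.card_eq_multiplicity, card_S5]
  decide +kernel

theorem card_syl3 (P : Sylow 3 (Perm (Fin 5))) : Nat.card P = 3 := by
  rw [Sylow.card_eq_multiplicity, card_S5]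
  decide +kernel

theorem pow5_of_pow (s : Perm (Fin 5)) (k : ℕ) (h : s ^ 5 ^ k = 1) : s ^ 5 = 1 := by
  induction k generalizing s with
  | zero => simp at h; simp [h]
  | succ k ih =>
    apply perm_fact4
    rw [pow_succ', pow_mul] at h
    have := ih _ h
    rw [← pow_mul] at this
    exact this

theorem pow_of_mem {G : Type} [Group G] {p : ℕ} (P : Sylow p G) {x : G}
    (hx : x ∈ (P : Subgroup G)) : ∃ k, x ^ p ^ k = 1 := by
  obtain ⟨k, hk⟩ := P.isPGroup' ⟨x, hx⟩
  exact ⟨k, congrArg Subtype.val hk⟩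

/-- No arc `5 → 3` in `GG`. -/
theorem not_arc53 : ¬ SylowArc GG 5 3 := by
  rintro ⟨-, -, -, -, P, hP⟩
  have h3 := hP.trans (Subgroup.relIndex_dvd_card _ _)
  obtain ⟨y, hy⟩ := exists_prime_orderOf_dvd_card' 3 h3
  have hy3 : (y : GG) ^ 3 = 1 := by
    have : y ^ 3 = 1 := by rw [← hy, pow_orderOf_eq_one]
    exact_mod_cast congrArg Subtype.val this
  have hy1 : (y : GG) ≠ 1 := by
    intro h
    have : y = 1 := Subtype.ext h
    rw [this, orderOf_one] at hy
    exact absurd hy (by decide)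
  obtain ⟨s, hs, hs1, hs5, hsall⟩ := cyc (p := 5)
    ((P.mapSurjective tau_surj : Sylow 5 _) : Subgroup (Perm (Fin 5))) (card_syl5 _)
  rw [Sylow.coe_mapSurjective] at hs hsall
  obtain ⟨x, hx, rfl⟩ := hs
  have hconj : (y : GG) * x * (y : GG)⁻¹ ∈ (P : Subgroup GG) :=
    (Subgroup.mem_normalizer_iff.1 y.2 x).1 hx
  have hys : (y : GG).s = 1 := by
    apply perm_fact1 (tau x) _ hs5 hs1 (by rw [← pow_s, hy3, one_s])
    obtain ⟨k, hk, hk2⟩ := hsall _ ⟨_, hconj, rfl⟩
    rw [map_mul, map_mul, map_inv, tau_apply (y : GG)] at hk2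
    rw [hk2]
    interval_cases k <;> simp
  have hcomm : (y : GG) * x * (y : GG)⁻¹ * x⁻¹ ∈ (P : Subgroup GG) :=
    Subgroup.mul_mem _ hconj (Subgroup.inv_mem _ hx)
  obtain ⟨k, hk⟩ := pow_of_mem P hcomm
  have hV := mem_V_of_pow _ (by simp [hys]) k hk
  have hc : (y : GG).c = 0 := by
    apply perm_fact3 (tau x) hs5 hs1 _ (y : GG).hc
    intro i
    have := congrFun hV.2.1 (x.s i)
    simp [hys] at this
    rw [tau_apply]
    have h2 : (y : GG).c (x.s i) - (y : GG).c i = 0 := by
      rw [← this]; ring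
    exact sub_eq_zero.1 h2
  have he : (y : GG).e = 0 := by
    apply z2 3 (by decide)
    rw [← pow_e, hy3, one_e]
  exact hy1 (eq_one_of_mem_V _ ⟨hys, hc, he⟩ 1 (by simpa using hy3))

/-- No arc `3 → 5` in `GG`. -/
theorem not_arc35 : ¬ SylowArc GG 3 5 := by
  rintro ⟨-, -, -, -, R, hR⟩
  set N := Subgroup.normalizer ((R : Subgroup GG) : Set GG) with hN
  set K := (R : Subgroup GG) ⊔ Subgroup.centralizer ((R : Subgroup GG) : Set GG) with hK
  obtain ⟨P⟩ : Nonempty (Sylow 5 N) := inferInstance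
  have hle : (P : Subgroup N) ≤ K.subgroupOf N := by
    intro x hx
    rw [Subgroup.mem_subgroupOf]
    apply Subgroup.mem_sup_right
    obtain ⟨k, hk⟩ := pow_of_mem P hx
    have hk' : (x : GG) ^ 5 ^ k = 1 := by exact_mod_cast congrArg Subtype.val hk
    obtain ⟨t, ht, ht1, ht3, htall⟩ := cyc (p := 3)
      ((R.mapSurjective tau_surj : Sylow 3 _) : Subgroup (Perm (Fin 5))) (card_syl3 _)
    rw [Sylow.coe_mapSurjective] at ht htall
    obtain ⟨r, hr, rfl⟩ := ht
    have hxs : (x : GG).s = 1 := by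
      apply perm_fact2 _ (tau r) (pow5_of_pow _ k (by rw [← pow_s, hk', one_s])) ht3 ht1
      have hconj : (x : GG) * r * (x : GG)⁻¹ ∈ (R : Subgroup GG) :=
        (Subgroup.mem_normalizer_iff.1 x.2 r).1 hr
      obtain ⟨j, hj, hj2⟩ := htall _ ⟨_, hconj, rfl⟩
      rw [map_mul, map_mul, map_inv, tau_apply (x : GG)] at hj2
      rw [hj2]
      interval_cases j <;> simp
    have hxV : (x : GG) ∈ V := mem_V_of_pow _ hxs k hk'
    rw [Subgroup.mem_centralizer_iff]
    intro u hu
    have hconj : (x : GG) * u * (x : GG)⁻¹ ∈ (R : Subgroup GG) :=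
      (Subgroup.mem_normalizer_iff.1 x.2 u).1 hu
    have h1 : (x : GG) * u * (x : GG)⁻¹ * u⁻¹ ∈ (R : Subgroup GG) :=
      Subgroup.mul_mem _ hconj (Subgroup.inv_mem _ hu)
    have h2 : (x : GG) * u * (x : GG)⁻¹ * u⁻¹ ∈ V := by
      have := V.mul_mem hxV
        ((inferInstance : V.Normal).conj_mem _ (V.inv_mem hxV) u)
      simpa [mul_assoc] using this
    obtain ⟨j, hj⟩ := pow_of_mem R h1
    have h3 := eq_one_of_mem_V _ h2 j hj
    rw [mul_inv_eq_one, mul_inv_eq_iff_eq_mul] at h3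
    exact h3.symm
  exact P.not_dvd_index (hR.trans (Subgroup.index_dvd_of_le hle))

/-- An element of `ker tau` acting nontrivially on `V`. -/
def b0 : GG := { v := 0, c := ![1, -1, 0, 0, 0], s := 1, e := 0, hc := by decide }

/-- An element of `V` moved by `b0`. -/
def v0 : GG := { v := fun w => if w = (0, 0) then 1 else 0, c := 0, s := 1, e := 0, hc := by decide }

theorem b0_v0 : v0 * b0 ≠ b0 * v0 := by
  intro h
  have := congrFun (congrArg GG.v h) (0, 0)
  revert this
  decide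

/-- The arc `5 → 3` in `ker tau`. -/
theorem arc53_B : SylowArc tau.ker 5 3 := by
  obtain ⟨P⟩ : Nonempty (Sylow 5 tau.ker) := inferInstance
  have hVp : IsPGroup 5 (V.subgroupOf tau.ker) := by
    intro x
    refine ⟨1, Subtype.ext (Subtype.ext ?_)⟩
    simpa using V_pow _ x.2
  have hPV : (P : Subgroup tau.ker) = V.subgroupOf tau.ker := by
    apply le_antisymm
    · intro x hx
      obtain ⟨k, hk⟩ := pow_of_mem P hx
      exact mem_V_of_pow _ x.2 k (congrArg Subtype.val hk)
    · exact hVp.le_sylow_of_normal P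
  have hv0 : v0 ∈ tau.ker := rfl
  have hb0 : b0 ∈ tau.ker := rfl
  have hv0V : v0 ∈ V := ⟨rfl, rfl, rfl⟩
  have key : 3 ∣ ((P : Subgroup tau.ker) ⊔
      Subgroup.centralizer ((P : Subgroup tau.ker) : Set tau.ker)).relIndex
        (Subgroup.normalizer ((P : Subgroup tau.ker) : Set tau.ker)) := by
    rw [hPV, Subgroup.normalizer_eq_top, Subgroup.relIndex_top_right]
    have hsup : V.subgroupOf tau.ker ⊔ Subgroup.centralizer
        ((V.subgroupOf tau.ker : Subgroup tau.ker) : Set tau.ker) = Subgroup.centralizer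
        ((V.subgroupOf tau.ker : Subgroup tau.ker) : Set tau.ker) := by
      apply sup_eq_right.2
      intro x hx
      rw [Subgroup.mem_centralizer_iff]
      intro u hu
      exact Subtype.ext (V_comm _ _ hu hx)
    rw [hsup]
    set C := Subgroup.centralizer
        ((V.subgroupOf tau.ker : Subgroup tau.ker) : Set tau.ker) with hC
    have hp : IsPGroup 3 (tau.ker ⧸ C) := by
      intro g
      obtain ⟨x, rfl⟩ := QuotientGroup.mk_surjective g
      refine ⟨1, ?_⟩
      rw [pow_one, ← QuotientGroup.mk_pow, QuotientGroup.eq_one_iff, hC,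
        Subgroup.mem_centralizer_iff]
      intro u hu
      obtain ⟨h1, h2, h3⟩ : (u : GG) ∈ V := hu
      have hxs : (x : GG).s = 1 := x.2
      have h4 : ((x : GG) ^ 3).s = 1 := by rw [pow_s, hxs, one_pow]
      have h5 : ((x : GG) ^ 3).c = 0 := by
        ext i
        rw [pow_c _ hxs, Pi.zero_apply]
        generalize (x : GG).c i = a
        revert a; decide
      apply Subtype.ext
      change (u : GG) * (x : GG) ^ 3 = (x : GG) ^ 3 * u
      ext1
      · ext w; simp [h1, h2, h4, h5, add_comm]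
      · ext i; simp [h2, h5]
      · simp [h1, h4]
      · simp [add_comm]
    obtain ⟨n, hn⟩ := hp.exists_card_eq
    rw [Subgroup.index, hn]
    apply dvd_pow_self
    rintro rfl
    rw [pow_zero, ← Subgroup.index, Subgroup.index_eq_one] at hn
    have : (⟨b0, hb0⟩ : tau.ker) ∈ C := by rw [hn]; trivial
    rw [hC, Subgroup.mem_centralizer_iff] at this
    exact b0_v0 (congrArg Subtype.val (this ⟨v0, hv0⟩ hv0V))
  refine ⟨by decide, by decide, ?_, ?_, P, key⟩
  · have : orderOf (⟨v0, hv0⟩ : tau.ker) = 5 := by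
      apply orderOf_eq_prime
      · exact Subtype.ext (V_pow _ hv0V)
      · intro h
        have h2 : v0 = 1 := congrArg Subtype.val h
        apply b0_v0
        rw [h2, one_mul, mul_one]
    have h5 := orderOf_dvd_natCard (⟨v0, hv0⟩ : tau.ker)
    rwa [this] at h5
  · exact (key.trans (Subgroup.relIndex_dvd_card _ _)).trans (Subgroup.card_subgroup_dvd_card _)

theorem main :
    ∃ (G : Type) (_ : Group G) (_ : Finite G) (A B : Subgroup G),
      A.Normal ∧ B.Normal ∧ (∀ g : G, ∃ a ∈ A, ∃ b ∈ B, g = a * b) ∧ ¬ A ≤ B ∧ ¬ B ≤ A ∧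
      (undirectedSylowGraph G).edgeSet ≠
        (undirectedSylowGraph A).edgeSet ∪ (undirectedSylowGraph B).edgeSet := by
  refine ⟨GG, inferInstance, inferInstance, eps.ker, tau.ker, inferInstance, inferInstance,
    ?_, ?_, ?_, ?_⟩
  · intro g
    let z : GG := { v := 0, c := 0, s := 1, e := g.e, hc := by simp }
    refine ⟨g * z⁻¹, ?_, z, rfl, by simp⟩
    rw [MonoidHom.mem_ker]
    change Multiplicative.ofAdd (g.e + - g.e) = 1
    rw [add_neg_cancel]; rfl
  · intro h
    have : ({ v := 0, c := 0, s := Equiv.swap 0 1, e := 0, hc := by simp } : GG) ∈ eps.ker := rfl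
    have h2 : Equiv.swap (0 : Fin 5) 1 = 1 := h this
    revert h2; decide
  · intro h
    have : ({ v := 0, c := 0, s := 1, e := 1, hc := by simp } : GG) ∈ tau.ker := rfl
    have h2 : Multiplicative.ofAdd (1 : ZMod 2) = 1 := h this
    revert h2; decide
  · intro h
    have h1 : s(5, 3) ∈ (undirectedSylowGraph tau.ker).edgeSet := by
      rw [SimpleGraph.mem_edgeSet, undirectedSylowGraph, SimpleGraph.fromRel_adj]
      exact ⟨by decide, Or.inl arc53_B⟩
    have h2 : s(5, 3) ∈ (undirectedSylowGraph GG).edgeSet := by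
      rw [h]; exact Or.inr h1
    rw [SimpleGraph.mem_edgeSet, undirectedSylowGraph, SimpleGraph.fromRel_adj] at h2
    exact h2.2.elim not_arc53 not_arc35

end Pool.Agent.Work.MP_8e29f8_al
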