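import Mathlib.GroupTheory.Sylow
import Mathlib.Combinatorics.SimpleGraph.Basic

namespace Pool.Agent.Work.MP_8e29f8_al

/-- Arc `p → q` of the directed Sylow graph of `H`: `p` and `q` are primes dividing `|H|` and,
for a Sylow `p`-subgroup `P` of `H`, the prime `q` divides the index `|N_H(P) : P C_H(P)|`. -/
def SylowArc (H : Type) [Group H] (p q : ℕ) : Prop :=
  p.Prime ∧ q.Prime ∧ p ∣ Nat.card H ∧ q ∣ Nat.card H ∧
    ∃ P : Sylow p H,
      q ∣ ((P : Subgroup H) ⊔ Subgroup.centralizer ((P : Subgroup H) : Set H)).relIndex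
        (Subgroup.normalizer ((P : Subgroup H) : Set H))

/-- The undirected Sylow graph of `H`, drawn on the vertex type `ℕ`: distinct `p`, `q` are adjacent
when there is an arc `p → q` or an arc `q → p`. (Numbers outside `π(H)` are isolated.) -/
def undirectedSylowGraph (H : Type) [Group H] : SimpleGraph ℕ :=
  SimpleGraph.fromRel (SylowArc H)

end Pool.Agent.Work.MP_8e29f8_al
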